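import Pool.Agent.W23.UL.Defs

/-! UL-SUPR: the exponential sum of `Λ(rough part)` minus its model. -/

namespace Pool.Agent.W131.UL

open Finset
open Pool.Agent.H373R2.T7
open Pool.Agent.H807R2.Dav
open Pool.Agent.W23.UL

lemma smo_mul_rgh (z : ℕ) {n : ℕ} (hn : n ≠ 0) : smo z n * rgh z n = n := by
  unfold smo rgh
  have h1 : (n.primeFactorsList.filter (fun p => decide (z < p))) =
      n.primeFactorsList.filter (fun p => !decide (p ≤ z)) := by
    congr 1
    funext p
    simp only [← not_le, decide_not]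
  rw [h1, ← List.prod_append, (List.filter_append_perm _ _).prod_eq, Nat.prod_primeFactorsList hn]

lemma rgh_rough {z n p : ℕ} (hp : p.Prime) (hpz : p ≤ z) : ¬ p ∣ rgh z n := by
  intro h
  unfold rgh at h
  rw [Prime.dvd_prod_iff hp.prime] at h
  obtain ⟨a, ha, hpa⟩ := h
  rw [List.mem_filter] at ha
  have haP := Nat.prime_of_mem_primeFactorsList ha.1
  have h1 := (Nat.prime_dvd_prime_iff_eq hp haP).1 hpa
  have h2 : z < a := by simpa using ha.2
  omega

lemma smo_smooth {z n p : ℕ} (hp : p.Prime) (h : p ∣ smo z n) : p ≤ z := by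
  unfold smo at h
  rw [Prime.dvd_prod_iff hp.prime] at h
  obtain ⟨a, ha, hpa⟩ := h
  rw [List.mem_filter] at ha
  have haP := Nat.prime_of_mem_primeFactorsList ha.1
  have h1 := (Nat.prime_dvd_prime_iff_eq hp haP).1 hpa
  have h2 : a ≤ z := by simpa using ha.2
  omega

lemma smo_mul {z m s : ℕ} (hm : m ≠ 0) (hs : s ≠ 0) (h1 : ∀ q : ℕ, q.Prime → q ∣ m → q ≤ z)
    (h2 : ∀ p : ℕ, p.Prime → p ≤ z → ¬ p ∣ s) : smo z (m * s) = m := by
  unfold smo
  have hperm := (Nat.perm_primeFactorsList_mul hm hs).filter (fun p => decide (p ≤ z))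
  rw [hperm.prod_eq, List.filter_append, List.prod_append]
  have e1 : m.primeFactorsList.filter (fun p => decide (p ≤ z)) = m.primeFactorsList := by
    rw [List.filter_eq_self]
    intro a ha
    simpa using h1 a (Nat.prime_of_mem_primeFactorsList ha) (Nat.dvd_of_mem_primeFactorsList ha)
  have e2 : s.primeFactorsList.filter (fun p => decide (p ≤ z)) = [] := by
    rw [List.filter_eq_nil_iff]
    intro a ha h3
    exact h2 a (Nat.prime_of_mem_primeFactorsList ha) (by simpa using h3)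
      (Nat.dvd_of_mem_primeFactorsList ha)
  rw [e1, e2, Nat.prod_primeFactorsList hm, List.prod_nil, mul_one]

lemma rgh_mul {z m s : ℕ} (hm : m ≠ 0) (hs : s ≠ 0) (h1 : ∀ q : ℕ, q.Prime → q ∣ m → q ≤ z)
    (h2 : ∀ p : ℕ, p.Prime → p ≤ z → ¬ p ∣ s) : rgh z (m * s) = s := by
  have h3 := smo_mul_rgh z (mul_ne_zero hm hs)
  rw [smo_mul hm hs h1 h2] at h3
  exact Nat.eq_of_mul_eq_mul_left (Nat.pos_of_ne_zero hm) h3

lemma smo_pos (z : ℕ) {n : ℕ} (hn : n ≠ 0) : 0 < smo z n := by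
  rcases Nat.eq_zero_or_pos (smo z n) with h | h
  · have := smo_mul_rgh z hn
    rw [h, zero_mul] at this
    exact absurd this.symm hn
  · exact h

lemma rgh_pos (z : ℕ) {n : ℕ} (hn : n ≠ 0) : 0 < rgh z n := by
  rcases Nat.eq_zero_or_pos (rgh z n) with h | h
  · have := smo_mul_rgh z hn
    rw [h, mul_zero] at this
    exact absurd this.symm hn
  · exact h

lemma rgh_le (z : ℕ) {n : ℕ} (hn : n ≠ 0) : rgh z n ≤ n :=
  Nat.le_of_dvd (Nat.pos_of_ne_zero hn) (Dvd.intro_left _ (smo_mul_rgh z hn))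

/-- the number of powers of small primes -/
lemma nonrough_card (z M : ℕ) (hM : M ≠ 0) :
    ((Icc 1 M).filter (fun s => (¬ ∀ p ∈ pz z, ¬ p ∣ s) ∧ IsPrimePow s)).card ≤
      z * (Nat.log 2 M + 1) := by
  have hsub : ((Icc 1 M).filter (fun s => (¬ ∀ p ∈ pz z, ¬ p ∣ s) ∧ IsPrimePow s)) ⊆
      ((Icc 1 z) ×ˢ (range (Nat.log 2 M + 1))).image (fun q : ℕ × ℕ => q.1 ^ q.2) := by
    intro s hs
    rw [mem_filter, mem_Icc] at hs
    obtain ⟨⟨_, hsM⟩, hs2, hs3⟩ := hs
    push Not at hs2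
    obtain ⟨p, hp, hps⟩ := hs2
    rw [mem_pz] at hp
    obtain ⟨q, k, hq, hk, rfl⟩ := hs3
    have hq' := hq.nat_prime
    have hpq : p = q := (Nat.prime_dvd_prime_iff_eq hp.2 hq').1 (hp.2.dvd_of_dvd_pow hps)
    subst hpq
    rw [mem_image]
    refine ⟨(p, k), ?_, rfl⟩
    rw [mem_product, mem_Icc, mem_range]
    refine ⟨⟨hp.2.one_le, hp.1⟩, ?_⟩
    have h1 : 2 ^ k ≤ M := (Nat.pow_le_pow_left hp.2.two_le k).trans hsM
    have := Nat.le_log_of_pow_le (by norm_num : 1 < 2) h1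
    omega
  refine (card_le_card hsub).trans (card_image_le.trans ?_)
  rw [card_product, Nat.card_Icc, card_range]
  simp

lemma nonrough (z M : ℕ) (hM : M ≠ 0) {L : ℝ} (hL : 1 ≤ L) (hML : Real.log M ≤ L) (w : ℕ → ℂ)
    (hw : ∀ n, ‖w n‖ ≤ 1) :
    ‖∑ s ∈ (Icc 1 M).filter (fun s => ¬ ∀ p ∈ pz z, ¬ p ∣ s),
      ((ArithmeticFunction.vonMangoldt s : ℝ) : ℂ) * w s‖ ≤ 3 * z * L ^ 2 := by
  classical
  refine (norm_sum_le _ _).trans ?_
  have h1 : ∀ s ∈ (Icc 1 M).filter (fun s => ¬ ∀ p ∈ pz z, ¬ p ∣ s),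
      ‖((ArithmeticFunction.vonMangoldt s : ℝ) : ℂ) * w s‖ ≤ if IsPrimePow s then L else 0 := by
    intro s hs
    rw [mem_filter, mem_Icc] at hs
    rw [norm_mul, Complex.norm_real, Real.norm_of_nonneg ArithmeticFunction.vonMangoldt_nonneg]
    split_ifs with hpp
    · have h2 : ArithmeticFunction.vonMangoldt s ≤ L := by
        refine ArithmeticFunction.vonMangoldt_le_log.trans (le_trans ?_ hML)
        apply Real.log_le_log
        · exact_mod_cast hs.1.1
        · exact_mod_cast hs.1.2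
      calc _ ≤ ArithmeticFunction.vonMangoldt s * 1 :=
            mul_le_mul_of_nonneg_left (hw s) ArithmeticFunction.vonMangoldt_nonneg
        _ ≤ L := by rw [mul_one]; exact h2
    · rw [ArithmeticFunction.vonMangoldt_eq_zero_iff.2 hpp, zero_mul]
  refine (sum_le_sum h1).trans ?_
  rw [← sum_filter, filter_filter, sum_const, nsmul_eq_mul]
  have h2 := nonrough_card z M hM
  have h3 : (Nat.log 2 M : ℝ) ≤ 2 * L := by
    have h4 : (Nat.log 2 M : ℝ) ≤ Real.logb 2 M := by exact_mod_cast Real.natLog_le_logb M 2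
    refine h4.trans ?_
    unfold Real.logb
    have h5 := Real.log_two_gt_d9
    rw [div_le_iff₀ (by linarith)]
    have : 2 * L * 0.6931471803 ≤ 2 * L * Real.log 2 := by
      apply mul_le_mul_of_nonneg_left h5.le (by linarith)
    linarith
  have h6 : ((((Icc 1 M).filter (fun s => (¬ ∀ p ∈ pz z, ¬ p ∣ s) ∧ IsPrimePow s)).card : ℕ) : ℝ) ≤
      z * (Nat.log 2 M + 1) := by exact_mod_cast h2
  have h7 : (z : ℝ) * (Nat.log 2 M + 1) ≤ z * (3 * L) := by
    apply mul_le_mul_of_nonneg_left _ (by positivity)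
    linarith
  calc _ ≤ ((z : ℝ) * (3 * L)) * L := mul_le_mul_of_nonneg_right (h6.trans h7) (by linarith)
    _ = _ := by ring

/-- one fibre -/
lemma fibre (z N m : ℕ) (α : ℝ) {L K : ℝ} (hL : 1 ≤ L) (hNL : Real.log N ≤ L) (hm1 : 1 ≤ m)
    (hmN : m ≤ N) (hK : 0 ≤ K)
    (hsup : ‖∑ n ∈ Icc 1 (N / m), ((ArithmeticFunction.vonMangoldt n - lamz z n : ℝ) : ℂ) *
      ee ((n : ℝ) * (m * α))‖ ≤ K) :
    ‖∑ n ∈ (Icc 1 N).filter (fun n => smo z n = m),
      ((ArithmeticFunction.vonMangoldt (rgh z n) - (Vz z)⁻¹ : ℝ) : ℂ) * ee ((n : ℝ) * α)‖ ≤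
      K + 3 * z * L ^ 2 := by
  classical
  have hpos : 0 ≤ K + 3 * z * L ^ 2 := by positivity
  rcases ((Icc 1 N).filter (fun n => smo z n = m)).eq_empty_or_nonempty with he | ⟨n0, hn0⟩
  · rw [he, sum_empty, norm_zero]; exact hpos
  rw [mem_filter] at hn0
  have hsm : ∀ q : ℕ, q.Prime → q ∣ m → q ≤ z := by
    intro q hq hqm
    rw [← hn0.2] at hqm
    exact smo_smooth hq hqm
  have hm0 : m ≠ 0 := by omega
  have hM1 : 1 ≤ N / m := (Nat.one_le_div_iff (by omega)).2 hmN
  set w : ℕ → ℂ := fun s => ee ((s : ℝ) * (m * α)) with hw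
  have hrepr : ∑ n ∈ (Icc 1 N).filter (fun n => smo z n = m),
      ((ArithmeticFunction.vonMangoldt (rgh z n) - (Vz z)⁻¹ : ℝ) : ℂ) * ee ((n : ℝ) * α) =
      ∑ s ∈ (Icc 1 (N / m)).filter (fun s => ∀ p ∈ pz z, ¬ p ∣ s),
        ((ArithmeticFunction.vonMangoldt s - (Vz z)⁻¹ : ℝ) : ℂ) * w s := by
    refine sum_nbij' (fun n => rgh z n) (fun s => m * s) ?_ ?_ ?_ ?_ ?_
    · intro n hn
      rw [mem_filter, mem_Icc] at hn
      have hn0' : n ≠ 0 := by omega
      have h1 := smo_mul_rgh z hn0'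
      rw [hn.2] at h1
      rw [mem_filter, mem_Icc]
      refine ⟨⟨rgh_pos z hn0', ?_⟩, ?_⟩
      · rw [Nat.le_div_iff_mul_le (by omega), mul_comm, h1]
        exact hn.1.2
      · intro p hp
        rw [mem_pz] at hp
        exact rgh_rough hp.2 hp.1
    · intro s hs
      rw [mem_filter, mem_Icc] at hs
      have hs0 : s ≠ 0 := by omega
      have hr : ∀ p : ℕ, p.Prime → p ≤ z → ¬ p ∣ s := fun p hp hpz => hs.2 p (mem_pz.2 ⟨hpz, hp⟩)
      rw [mem_filter, mem_Icc]
      refine ⟨⟨Nat.mul_pos (by omega) (by omega), ?_⟩, smo_mul hm0 hs0 hsm hr⟩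
      rw [mul_comm]
      exact (Nat.le_div_iff_mul_le (by omega)).1 hs.1.2
    · intro n hn
      rw [mem_filter, mem_Icc] at hn
      have h1 := smo_mul_rgh z (n := n) (by omega)
      rw [hn.2] at h1
      exact h1
    · intro s hs
      rw [mem_filter, mem_Icc] at hs
      have hr : ∀ p : ℕ, p.Prime → p ≤ z → ¬ p ∣ s := fun p hp hpz => hs.2 p (mem_pz.2 ⟨hpz, hp⟩)
      exact rgh_mul hm0 (by omega) hsm hr
    · intro n hn
      rw [mem_filter, mem_Icc] at hn
      have h1 := smo_mul_rgh z (n := n) (by omega)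
      rw [hn.2] at h1
      congr 1
      simp only [hw]
      congr 1
      have : (n : ℝ) = m * rgh z n := by
        exact_mod_cast h1.symm
      rw [this]; ring
  have hall : ∑ n ∈ Icc 1 (N / m), ((ArithmeticFunction.vonMangoldt n - lamz z n : ℝ) : ℂ) * w n =
      ∑ s ∈ (Icc 1 (N / m)).filter (fun s => ∀ p ∈ pz z, ¬ p ∣ s),
        ((ArithmeticFunction.vonMangoldt s - (Vz z)⁻¹ : ℝ) : ℂ) * w s +
      ∑ s ∈ (Icc 1 (N / m)).filter (fun s => ¬ ∀ p ∈ pz z, ¬ p ∣ s),
        ((ArithmeticFunction.vonMangoldt s : ℝ) : ℂ) * w s := by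
    rw [← sum_filter_add_sum_filter_not (Icc 1 (N / m)) (fun s => ∀ p ∈ pz z, ¬ p ∣ s)]
    congr 1
    · refine sum_congr rfl (fun s hs => ?_)
      rw [mem_filter] at hs
      unfold lamz
      rw [if_pos hs.2]
    · refine sum_congr rfl (fun s hs => ?_)
      rw [mem_filter] at hs
      unfold lamz
      rw [if_neg hs.2, sub_zero]
  have hML : Real.log ((N / m : ℕ) : ℝ) ≤ L := by
    refine le_trans (Real.log_le_log (by exact_mod_cast hM1) ?_) hNL
    exact_mod_cast Nat.div_le_self N m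
  have hnr := nonrough z (N / m) (by omega) hL hML w (fun n => by simp only [hw]; rw [norm_ee])
  rw [hrepr]
  have heq : ∑ s ∈ (Icc 1 (N / m)).filter (fun s => ∀ p ∈ pz z, ¬ p ∣ s),
        ((ArithmeticFunction.vonMangoldt s - (Vz z)⁻¹ : ℝ) : ℂ) * w s =
      ∑ n ∈ Icc 1 (N / m), ((ArithmeticFunction.vonMangoldt n - lamz z n : ℝ) : ℂ) * w n -
      ∑ s ∈ (Icc 1 (N / m)).filter (fun s => ¬ ∀ p ∈ pz z, ¬ p ∣ s),
        ((ArithmeticFunction.vonMangoldt s : ℝ) : ℂ) * w s := by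
    rw [hall]; ring
  rw [heq]
  refine (norm_sub_le _ _).trans ?_
  exact add_le_add hsup hnr

lemma harm (R : ℕ) : ∑ m ∈ Icc 1 R, (1 / (m : ℝ)) ≤ 1 + Real.log R := by
  have h := harmonic_le_one_add_log R
  rw [harmonic_eq_sum_Icc] at h
  push_cast at h
  simpa [one_div] using h

theorem SUPR (hSMB : St_SMB) : St_SUPR := by
  classical
  intro U
  obtain ⟨B, hB⟩ := sup_diff (U + 2)
  refine ⟨B, fun E => ?_⟩
  obtain ⟨n1, h1⟩ := hB (E + 1)
  obtain ⟨n2, h2⟩ := hSMB E (U + 3) (1 / 2) (by norm_num)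
  obtain ⟨n3, h3⟩ := Vz_inv_small E
  obtain ⟨n4, h4⟩ := ev_log' (E + 2 + U) 9
  obtain ⟨n5, h5⟩ := ev_L' (6 * 4 ^ (U + 2))
  obtain ⟨n6, h6⟩ := ev_L' (4 ^ (E + 1))
  refine ⟨max (max (max (4 * n1 ^ 2) n2) (max n3 n4)) (max (max n5 n6) 16),
    fun N hN z hz1 hz2 α => ?_⟩
  have a1 : 4 * n1 ^ 2 ≤ N :=
    (((le_max_left _ _).trans (le_max_left _ _)).trans (le_max_left _ _)).trans hN
  have a2 : n2 ≤ N :=
    (((le_max_right _ _).trans (le_max_left _ _)).trans (le_max_left _ _)).trans hN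
  have a3 := h3 N ((((le_max_left _ _).trans (le_max_right _ _)).trans (le_max_left _ _)).trans hN)
  have a4 := h4 N ((((le_max_right _ _).trans (le_max_right _ _)).trans (le_max_left _ _)).trans hN)
  have a5 := h5 N ((((le_max_left _ _).trans (le_max_left _ _)).trans (le_max_right _ _)).trans hN)
  have a6 := h6 N ((((le_max_right _ _).trans (le_max_left _ _)).trans (le_max_right _ _)).trans hN)
  have hN16 : 16 ≤ N := ((le_max_right _ _).trans (le_max_right _ _)).trans hN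
  have hNr : (16 : ℝ) ≤ N := by exact_mod_cast hN16
  have hN0 : (0 : ℝ) < N := by linarith
  set L := Real.log N with hLd
  have h44 : (1 : ℝ) ≤ 4 ^ (U + 2) := one_le_pow₀ (by norm_num)
  have hL6 : 6 ≤ L := by linarith
  have hL0 : 0 < L := by linarith
  have hL1 : 1 ≤ L := by linarith
  have hz : 1 ≤ z := by
    have : (1 : ℝ) ≤ z := (one_le_pow₀ hL1).trans hz1
    exact_mod_cast this
  have hsq : (N : ℝ) ^ (1 / 2 : ℝ) = √(N : ℝ) := (Real.sqrt_eq_rpow _).symm
  set r : ℝ := √(N : ℝ) with hr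
  have hr2 : r ^ 2 = N := Real.sq_sqrt hN0.le
  have hr0 : 0 ≤ r := Real.sqrt_nonneg _
  have hr4 : 4 ≤ r := by
    rw [hr]
    apply Real.le_sqrt_of_sq_le
    linarith
  have hrN : r ≤ N := by nlinarith
  have hn1r : 2 * (n1 : ℝ) ≤ r := by
    rw [hr]
    apply Real.le_sqrt_of_sq_le
    have : ((4 * n1 ^ 2 : ℕ) : ℝ) ≤ N := by exact_mod_cast a1
    push_cast at this
    linarith
  set g : ℕ → ℂ := fun n => ((ArithmeticFunction.vonMangoldt (rgh z n) - (Vz z)⁻¹ : ℝ) : ℂ) *
      ee ((n : ℝ) * α) with hg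
  -- each term
  have hVpos : 0 < (Vz z)⁻¹ := inv_pos.2 (Vz_pos z)
  have hterm : ∀ n ∈ Icc 1 N, ‖g n‖ ≤ 2 * L := by
    intro n hn
    rw [mem_Icc] at hn
    have hn0 : n ≠ 0 := by omega
    simp only [hg]
    rw [norm_mul, norm_ee, mul_one, Complex.norm_real, Real.norm_eq_abs]
    have b1 : 0 ≤ ArithmeticFunction.vonMangoldt (rgh z n) := ArithmeticFunction.vonMangoldt_nonneg
    have b2 : ArithmeticFunction.vonMangoldt (rgh z n) ≤ L := by
      refine ArithmeticFunction.vonMangoldt_le_log.trans ?_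
      apply Real.log_le_log
      · exact_mod_cast rgh_pos z hn0
      · exact_mod_cast (rgh_le z hn0).trans hn.2
    have b3 := a3 z hz hz2
    rw [abs_le]
    constructor <;> linarith
  -- split
  have hsplit := sum_filter_add_sum_filter_not (Icc 1 N) (fun v : ℕ => (N : ℝ) ^ (1 / 2 : ℝ) < smo z v) g
  -- large smooth part
  have hlarge : ‖∑ n ∈ (Icc 1 N).filter (fun v : ℕ => (N : ℝ) ^ (1 / 2 : ℝ) < smo z v), g n‖ ≤
      N / (3 * L ^ U) := by
    refine (norm_sum_le _ _).trans ?_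
    refine (sum_le_sum (fun n hn => hterm n (mem_filter.1 hn).1)).trans ?_
    rw [sum_const, nsmul_eq_mul]
    have b1 := h2 N a2 z hz hz2
    refine (mul_le_mul_of_nonneg_right b1 (by linarith)).trans ?_
    rw [← hLd]
    have e : (N : ℝ) / L ^ (U + 3) * (2 * L) = N / (3 * L ^ U) * (6 / L ^ 2) := by
      rw [pow_add]
      field_simp
      ring
    rw [e]
    apply mul_le_of_le_one_right (by positivity)
    rw [div_le_one (by positivity)]
    nlinarith
  -- small smooth part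
  set R : ℕ := ⌊r⌋₊ with hR
  have hRr : (R : ℝ) ≤ r := Nat.floor_le hr0
  have hfib : ∑ n ∈ (Icc 1 N).filter (fun v : ℕ => ¬ (N : ℝ) ^ (1 / 2 : ℝ) < smo z v), g n =
      ∑ m ∈ Icc 1 R, ∑ n ∈ (Icc 1 N).filter (fun n => smo z n = m), g n := by
    rw [← sum_fiberwise_of_maps_to (t := Icc 1 R) (g := fun n => smo z n)]
    · refine sum_congr rfl (fun m hm => ?_)
      rw [mem_Icc] at hm
      have hmr : (m : ℝ) ≤ r := by
        have : (m : ℝ) ≤ R := by exact_mod_cast hm.2
        linarith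
      congr 1
      ext n
      simp only [mem_filter]
      constructor
      · rintro ⟨⟨c1, _⟩, c2⟩
        exact ⟨c1, c2⟩
      · rintro ⟨c1, c2⟩
        refine ⟨⟨c1, ?_⟩, c2⟩
        rw [hsq, c2, not_lt]
        exact hmr
    · intro n hn
      rw [mem_filter, mem_Icc] at hn
      rw [mem_Icc]
      refine ⟨smo_pos z (by omega), ?_⟩
      apply Nat.le_floor
      have := hn.2
      rw [hsq, not_lt] at this
      exact this
  have hsmall1 : ∀ m ∈ Icc 1 R, ‖∑ n ∈ (Icc 1 N).filter (fun n => smo z n = m), g n‖ ≤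
      (4 ^ (U + 2) * N / L ^ (U + 2)) * (1 / (m : ℝ)) + 3 * z * L ^ 2 := by
    intro m hm
    rw [mem_Icc] at hm
    have hm0 : (0 : ℝ) < m := by exact_mod_cast hm.1
    have hmr : (m : ℝ) ≤ r := by
      have : (m : ℝ) ≤ R := by exact_mod_cast hm.2
      linarith
    have hmN : m ≤ N := by
      have : (m : ℝ) ≤ N := hmr.trans hrN
      exact_mod_cast this
    set M : ℕ := N / m with hM
    have hMle : (M : ℝ) ≤ N / m := Nat.cast_div_le
    have hMge : r / 2 ≤ (M : ℝ) := by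
      have c1 : (N : ℝ) / m < M + 1 := by
        rw [div_lt_iff₀ hm0]
        have : N < (M + 1) * m := by
          rw [hM]
          exact Nat.lt_succ_iff.1 (by
            have := Nat.lt_div_mul_add (a := N) (b := m) (by omega)
            have e : (N / m + 1) * m = N / m * m + m := by ring
            omega)
        exact_mod_cast this
      have c2 : r ≤ N / m := by
        rw [le_div_iff₀ hm0, ← hr2]
        nlinarith
      linarith
    have hM0 : (0 : ℝ) < M := by linarith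
    have hMN : Real.log M ≤ L := Real.log_le_log hM0 (by
      refine hMle.trans (div_le_self hN0.le (by exact_mod_cast hm.1)))
    have hlogM : L / 4 ≤ Real.log M := by
      have c1 : Real.log (r / 2) ≤ Real.log M := Real.log_le_log (by linarith) hMge
      have c2 : Real.log (r / 2) = L / 2 - Real.log 2 := by
        rw [Real.log_div (by linarith) (by norm_num), hr, Real.log_sqrt hN0.le]
      have c3 := Real.log_two_lt_d9
      linarith
    have hlogM0 : 0 < Real.log M := by linarith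
    have hn1M : n1 ≤ M := by
      have : (n1 : ℝ) ≤ M := by linarith
      exact_mod_cast this
    have hzB : Real.log M ^ B ≤ z := (pow_le_pow_left₀ hlogM0.le hMN B).trans hz1
    have hzE : (z : ℝ) ≤ Real.log M ^ (E + 1) := by
      refine hz2.trans ?_
      have c1 : (L / 4) ^ (E + 1) ≤ Real.log M ^ (E + 1) :=
        pow_le_pow_left₀ (by linarith) hlogM (E + 1)
      refine le_trans ?_ c1
      rw [div_pow, le_div_iff₀ (by positivity), pow_succ]
      exact mul_le_mul_of_nonneg_left a6 (by positivity)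
    have hs := h1 M hn1M z hzB hzE (m * α)
    have hfb := fibre z N m α hL1 le_rfl hm.1 hmN (by positivity) hs
    refine hfb.trans ?_
    have c4 : (M : ℝ) / Real.log M ^ (U + 2) ≤ (4 ^ (U + 2) * N / L ^ (U + 2)) * (1 / (m : ℝ)) := by
      calc (M : ℝ) / Real.log M ^ (U + 2) ≤ (N / m) / (L / 4) ^ (U + 2) := by
            apply div_le_div₀ (by positivity) hMle (by positivity)
            exact pow_le_pow_left₀ (by linarith) hlogM _
        _ = _ := by
            rw [div_pow]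
            field_simp
    linarith
  have hsmall : ‖∑ n ∈ (Icc 1 N).filter (fun v : ℕ => ¬ (N : ℝ) ^ (1 / 2 : ℝ) < smo z v), g n‖ ≤
      2 * (N / (3 * L ^ U)) := by
    rw [hfib]
    refine (norm_sum_le _ _).trans ((sum_le_sum hsmall1).trans ?_)
    rw [sum_add_distrib, ← mul_sum, sum_const, nsmul_eq_mul, Nat.card_Icc, Nat.add_sub_cancel]
    have c1 : ∑ m ∈ Icc 1 R, (1 / (m : ℝ)) ≤ 2 * L := by
      refine (harm R).trans ?_
      have : Real.log R ≤ L := by
        rcases Nat.eq_zero_or_pos R with h | h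
        · rw [h]; simp; linarith
        · exact Real.log_le_log (by exact_mod_cast h) (hRr.trans hrN)
      linarith
    have c2 : (4 ^ (U + 2) * N / L ^ (U + 2)) * ∑ m ∈ Icc 1 R, (1 / (m : ℝ)) ≤ N / (3 * L ^ U) := by
      calc _ ≤ (4 ^ (U + 2) * N / L ^ (U + 2)) * (2 * L) :=
            mul_le_mul_of_nonneg_left c1 (by positivity)
        _ = N / (3 * L ^ U) * ((6 * 4 ^ (U + 2)) / L) := by
            rw [pow_add L U 2]
            field_simp
            ring
        _ ≤ N / (3 * L ^ U) := by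
            apply mul_le_of_le_one_right (by positivity)
            rw [div_le_one hL0]
            exact a5
    have c3 : (R : ℝ) * (3 * z * L ^ 2) ≤ N / (3 * L ^ U) := by
      rw [le_div_iff₀ (by positivity)]
      calc (R : ℝ) * (3 * z * L ^ 2) * (3 * L ^ U) ≤ r * (3 * L ^ E * L ^ 2) * (3 * L ^ U) := by
            gcongr
        _ = r * (9 * L ^ (E + 2 + U)) := by
            rw [pow_add, pow_add]; ring
        _ ≤ r * r := mul_le_mul_of_nonneg_left a4 hr0
        _ = N := by rw [← hr2]; ring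
    linarith
  have hfin : ∑ n ∈ Icc 1 N, g n =
      ∑ n ∈ (Icc 1 N).filter (fun v : ℕ => (N : ℝ) ^ (1 / 2 : ℝ) < smo z v), g n +
      ∑ n ∈ (Icc 1 N).filter (fun v : ℕ => ¬ (N : ℝ) ^ (1 / 2 : ℝ) < smo z v), g n := hsplit.symm
  rw [hfin]
  refine (norm_add_le _ _).trans ((add_le_add hlarge hsmall).trans (le_of_eq ?_))
  field_simp
  ring

end Pool.Agent.W131.UL
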